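import Pool.Agent.helper87.OV.Fam

/-!
# MP_2e0e07_nt, project OV (one variety): the definitions of the final statement
-/

set_option autoImplicit false

namespace Pool.Agent.OV

open Matrix Polynomial Pool.Agent.GO Pool.Agent.AR Pool.Agent.RG Pool.Agent.HZ Pool.Agent.DS
  Pool.Agent.AX MeasureTheory NumberField

/-- ONE VARIETY. For every prime `q` the `V q i` are continuous representations over `ℤ_[q]` and the
characteristic polynomials of `V q i` at the Frobenius elements at `v` are `P i v`, for all `v` outside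
`B` with residue characteristic `ch v ≠ q`. -/
structure IsCohomology {Γ Place : Type} [Group Γ] [TopologicalSpace Γ] (frob : Place → Set Γ)
    (ch : Place → ℕ) (B : Set Place) {r : ℕ} {n : Fin r → ℕ} (P : Fin r → Place → ℤ[X])
    (V : (q : ℕ) → [Fact q.Prime] → (i : Fin r) →
      Γ →* Matrix (Fin (n i)) (Fin (n i)) ℤ_[q]) : Prop where
  cont : ∀ (q : ℕ) [Fact q.Prime] (i : Fin r), Continuous (V q i)
  charpoly : ∀ (q : ℕ) [Fact q.Prime] (i : Fin r), ∀ v ∉ B, ch v ≠ q → ∀ s ∈ frob v,
    (V q i s).charpoly = (P i v).map (Int.castRingHom ℤ_[q])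

/-- ONE FORM WITHOUT CM, at the primes `p j`. The `ρ j` are continuous with integral entries over `F j`,
the characteristic polynomials of `ρ j` at the Frobenius elements at `v` are `Q v`, for all `v` outside `B`
with residue characteristic `ch v ≠ p j`, where `Q v` is integral; `ρ j` is absolutely irreducible on
every open subgroup; and, except for finitely many `j`, the reduction of `ρ j` by the residue map `red j`
is irreducible over the algebraically closed field `κ j` and its image contains an element of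
order `p j`. -/
structure IsForm {Γ Place E : Type} [Group Γ] [TopologicalSpace Γ] [Field E]
    (frob : Place → Set Γ) (ch : Place → ℕ) (B : Set Place) (Q : Place → E[X])
    {J : Type} (p : J → ℕ) {F κ : J → Type} [∀ j, NormedField (F j)] [∀ j, Field (κ j)]
    (ι : ∀ j, E →+* F j) (red : ∀ j, F j → κ j)
    (ρ : ∀ j, Γ →* Matrix (Fin 2) (Fin 2) (F j)) : Prop where
  integral : ∀ v ∉ B, ∀ k, IsIntegral ℤ ((Q v).coeff k)
  residue : ∀ j, IsRed (red j)
  cont : ∀ j, Continuous (ρ j)
  entries : ∀ j g a b, ‖ρ j g a b‖ ≤ 1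
  charpoly : ∀ j, ∀ v ∉ B, ch v ≠ p j → ∀ s ∈ frob v, (ρ j s).charpoly = (Q v).map (ι j)
  irred : ∀ j, ∀ U : Subgroup Γ, IsOpen (U : Set Γ) →
    Irred (fun u : U => bc (algebraMap (F j) (AlgebraicClosure (F j))) (ρ j) u)
  large : ∃ J₀ : Set J, J₀.Finite ∧ ∀ j ∉ J₀, Irred (fun g => (ρ j g).map (red j)) ∧
    ∃ g, orderOf ((ρ j g).map (red j)) = p j

/-- `ρ` comes from the `V i`. With scalars extended to the algebraic closure `Ω` of `F`: on an open
subgroup `ad⁰ ρ` is a subquotient of a tensor construction of `⊕ V i` (`AdArises`), and if there is a good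
set of places (`IsGoodSet`) then `ρ` is a subquotient of some `V i ⊗ Ω[finite Γ-set]` (`Arises`). -/
def ComesFrom {Γ Place E : Type} [Group Γ] [TopologicalSpace Γ] [MeasurableSpace Γ] [Field E]
    (μ : Measure Γ) (frob : Place → Set Γ) {r : ℕ} {n : Fin r → ℕ} (P : Fin r → Place → ℤ[X])
    (Q : Place → E[X]) (p : ℕ) [Fact p.Prime] {F : Type} [NormedField F] [NormedAlgebra ℚ_[p] F]
    (V : (i : Fin r) → Γ →* Matrix (Fin (n i)) (Fin (n i)) ℤ_[p])
    (ρ : Γ →* Matrix (Fin 2) (Fin 2) F) : Prop :=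
  AdArises (fun i => mapHom (padicTo p F (AlgebraicClosure F)) (V i))
    (bc (algebraMap F (AlgebraicClosure F)) ρ) ∧
  ∀ (q : Place → ℕ) (s : ℕ) (w : Fin r → ℕ) (O : Set Place),
    IsGoodSet μ frob n (fun i v => (P i v).map (Int.castRingHom E)) Q q s w O →
    Arises (fun i => mapHom (padicTo p F (AlgebraicClosure F)) (V i))
      (bc (algebraMap F (AlgebraicClosure F)) ρ)

/-- Neither `ad⁰ ρ` nor, if there is a good set of places, `ρ` comes from the `V i`. -/
def NotFrom {Γ Place E : Type} [Group Γ] [TopologicalSpace Γ] [MeasurableSpace Γ] [Field E]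
    (μ : Measure Γ) (frob : Place → Set Γ) {r : ℕ} {n : Fin r → ℕ} (P : Fin r → Place → ℤ[X])
    (Q : Place → E[X]) (p : ℕ) [Fact p.Prime] {F : Type} [NormedField F] [NormedAlgebra ℚ_[p] F]
    (V : (i : Fin r) → Γ →* Matrix (Fin (n i)) (Fin (n i)) ℤ_[p])
    (ρ : Γ →* Matrix (Fin 2) (Fin 2) F) : Prop :=
  ¬ AdArises (fun i => mapHom (padicTo p F (AlgebraicClosure F)) (V i))
    (bc (algebraMap F (AlgebraicClosure F)) ρ) ∧
  ∀ (q : Place → ℕ) (s : ℕ) (w : Fin r → ℕ) (O : Set Place),
    IsGoodSet μ frob n (fun i v => (P i v).map (Int.castRingHom E)) Q q s w O →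
    ¬ Arises (fun i => mapHom (padicTo p F (AlgebraicClosure F)) (V i))
      (bc (algebraMap F (AlgebraicClosure F)) ρ)

end Pool.Agent.OV
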