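import Pool.Agent.helper87.OV.Loc

/-!
# MP_2e0e07_nt, project OV (one variety): realisations and residual families
-/

set_option autoImplicit false

namespace Pool.Agent.OV

open Matrix Polynomial Pool.Agent.GO Pool.Agent.AR Pool.Agent.RG Pool.Agent.HZ Pool.Agent.DS
  Pool.Agent.AX MeasureTheory NumberField

theorem realis {Γ Place E : Type} [Group Γ] [TopologicalSpace Γ] [Field E] [NumberField E]
    (p : ℕ) [Fact p.Prime] (F Ω : Type) [NormedField F] [NormedAlgebra ℚ_[p] F]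
    [Field Ω] [Algebra F Ω] [TopologicalSpace Ω] (hc : Continuous (algebraMap F Ω))
    (frob : Place → Set Γ) (T : Set Place) (hT : T.Finite) {r : ℕ} {n : Fin r → ℕ}
    (P : Fin r → Place → ℤ[X]) (Q : Place → E[X])
    (V : (i : Fin r) → Γ →* Matrix (Fin (n i)) (Fin (n i)) ℤ_[p]) (hV : ∀ i, Continuous (V i))
    (hcV : ∀ i, ∀ v ∉ T, ∀ s ∈ frob v, (V i s).charpoly = (P i v).map (Int.castRingHom ℤ_[p]))
    (ι : E →+* F) (ρ : Γ →* Matrix (Fin 2) (Fin 2) F) (hρ : Continuous ρ)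
    (hcρ : ∀ v ∉ T, ∀ s ∈ frob v, (ρ s).charpoly = (Q v).map ι)
    (hirr : ∀ U : Subgroup Γ, IsOpen (U : Set Γ) → Irred (fun u : U => bc (algebraMap F Ω) ρ u)) :
    IsRealisation frob (fun i v => (P i v).map (Int.castRingHom E)) Q
      ((algebraMap F Ω).comp ι) (fun i => mapHom (padicTo p F Ω) (V i))
      (bc (algebraMap F Ω) ρ) := by
  refine ⟨fun i => ?_, ?_, fun i => ⟨T, hT, fun v hv s hs => ?_⟩,
    ⟨T, hT, fun v hv s hs => ?_⟩, hirr⟩
  · have h1 : Continuous (padicTo p F Ω) := by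
      refine hc.comp ((continuous_algebraMap ℚ_[p] F).comp ?_)
      exact continuous_subtype_val
    exact (hV i).matrix_map h1
  · exact hρ.matrix_map hc
  · have h1 : (mapHom (padicTo p F Ω) (V i) s).charpoly =
        ((V i s).charpoly).map (padicTo p F Ω) := Matrix.charpoly_map (V i s) (padicTo p F Ω)
    rw [h1, hcV i v hv s hs, Polynomial.map_map, Polynomial.map_map]
    exact congrArg (fun f => (P i v).map f) (RingHom.ext_int _ _)
  · have h1 : (bc (algebraMap F Ω) ρ s).charpoly =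
        ((ρ s).charpoly).map (algebraMap F Ω) := Matrix.charpoly_map (ρ s) (algebraMap F Ω)
    rw [h1, hcρ v hv s hs, Polynomial.map_map]

theorem zmod_coeff {Γ : Type} [Group Γ] (p : ℕ) [Fact p.Prime] (n : ℕ)
    (V : Γ →* Matrix (Fin n) (Fin n) ℤ_[p]) (s : Γ) (P : ℤ[X])
    (h : (V s).charpoly = P.map (Int.castRingHom ℤ_[p])) (k : ℕ) :
    (mapHom (PadicInt.toZMod (p := p)) V s).charpoly.coeff k = ((P.coeff k : ℤ) : ZMod p) := by
  have h1 : (mapHom (PadicInt.toZMod (p := p)) V s).charpoly =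
      ((V s).charpoly).map (PadicInt.toZMod (p := p)) :=
    Matrix.charpoly_map (V s) (PadicInt.toZMod (p := p))
  rw [h1, h, Polynomial.coeff_map, Polynomial.coeff_map, eq_intCast, map_intCast]

theorem resid {Γ Place E K : Type} [Group Γ] [TopologicalSpace Γ] [IsTopologicalGroup Γ]
    [Field E] [NumberField E] (frob : Place → Set Γ) (ch : Place → ℕ)
    (hch : ∀ q, {v | ch v = q}.Finite) (B : Set Place) (hB : B.Finite)
    {r : ℕ} {n : Fin r → ℕ} (P : Fin r → Place → ℤ[X]) (Q : Place → E[X])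
    (hQ : ∀ v ∉ B, ∀ k, IsIntegral ℤ ((Q v).coeff k)) (p : K → ℕ) [∀ y, Fact (p y).Prime]
    (hfin : ∀ m, {y | p y ≤ m}.Finite) (F κ : K → Type) [∀ y, NormedField (F y)]
    [∀ y, NormedAlgebra ℚ_[p y] (F y)] [∀ y, Field (κ y)] [∀ y, CharP (κ y) (p y)]
    (V : ∀ y, (i : Fin r) → Γ →* Matrix (Fin (n i)) (Fin (n i)) ℤ_[p y])
    (hV : ∀ y i, Continuous (V y i))
    (hcV : ∀ y i, ∀ v ∉ B, ch v ≠ p y → ∀ s ∈ frob v,
      (V y i s).charpoly = (P i v).map (Int.castRingHom ℤ_[p y]))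
    (ι : ∀ y, E →+* F y) (red : ∀ y, F y → κ y) (hred : ∀ y, IsRed (red y))
    (ρ : ∀ y, Γ →* Matrix (Fin 2) (Fin 2) (F y)) (hρ : ∀ y, Continuous (ρ y))
    (hint : ∀ y g a b, ‖ρ y g a b‖ ≤ 1)
    (hcρ : ∀ y, ∀ v ∉ B, ch v ≠ p y → ∀ s ∈ frob v, (ρ y s).charpoly = (Q v).map (ι y))
    (O : ∀ y, Subring (F y)) (hO : ∀ y x, x ∈ O y ↔ ‖x‖ ≤ 1)
    (hI : ∀ y (x : F y), IsIntegral ℤ x → ‖x‖ ≤ 1)
    (hres : ∀ y, Irred (fun g => (ρ y g).map (red y)) ∧
      ∃ g, orderOf ((ρ y g).map (red y)) = p y) :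
    IsResidualFam frob (fun (_ : K) i v => (P i v).map (Int.castRingHom E)) Q p κ
      (fun y => plc (O y) (hO y) (hI y) (red y) (hred y) (ι y))
      (fun y i => mapHom (PadicInt.toZMod (p := p y)) (V y i))
      (fun y => mapHom (redO (O y) (hO y) (red y) (hred y))
        (intRep (O y) (hO y) (ρ y) (hint y))) := by
  have hv' : ∀ y v, v ∉ B ∪ {v | ch v = p y} → v ∉ B ∧ ch v ≠ p y := by
    intro y v hv
    simpa [not_or] using hv
  have hS : ∀ y g, mapHom (redO (O y) (hO y) (red y) (hred y))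
      (intRep (O y) (hO y) (ρ y) (hint y)) g = (ρ y g).map (red y) := fun y g => rfl
  constructor
  · exact fun y => Fact.out
  · intro m
    refine ⟨∑ y ∈ (hfin m).toFinset, (mapHom (redO (O y) (hO y) (red y) (hred y))
      (intRep (O y) (hO y) (ρ y) (hint y))).ker.index, fun y hy => ?_⟩
    exact Finset.single_le_sum (f := fun y => (mapHom (redO (O y) (hO y) (red y) (hred y))
      (intRep (O y) (hO y) (ρ y) (hint y))).ker.index) (fun _ _ => Nat.zero_le _)
      ((hfin m).mem_toFinset.2 hy)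
  · exact fun y i => open_zmod (p y) (n i) (V y i) (hV y i)
  · exact fun y => open_red (O y) (hO y) (red y) (hred y) (ρ y) (hρ y) (hint y)
  · refine ⟨B, fun y => B ∪ {v | ch v = p y}, hB, fun y => hB.union (hch _),
      fun v hv => ⟨ch v, fun y hy => ?_⟩, fun y v hv s hs => ⟨fun i k => ?_, fun k => ?_⟩⟩
    · rcases hy with h | h
      · exact absurd h hv
      · exact le_of_eq (Eq.symm h)
    · obtain ⟨h1, h2⟩ := hv' y v hv
      refine ⟨(((P i v).coeff k : ℤ) : 𝓞 E), 1, by simp, ?_, ?_⟩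
      · rw [Polynomial.coeff_map]
        simp
      · rw [zmod_coeff (p y) (n i) (V y i) s (P i v) (hcV y i v h1 h2 s hs) k]
        simp
    · obtain ⟨h1, h2⟩ := hv' y v hv
      exact red_coeff (O y) (hO y) (hI y) (red y) (hred y) (ι y) (ρ y) (hint y) s (Q v)
        (hcρ y v h1 h2 s hs) k (hQ v h1 k)
  · intro y
    have h1 := (hres y).1
    exact h1
  · intro y
    obtain ⟨g, hg⟩ := (hres y).2
    exact ⟨g, hg⟩

end Pool.Agent.OV
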