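import Pool.Agent.helper87.OV.Fam

/-!
# MP_2e0e07_nt, project OV (one variety): the main theorem from `MAIN1_stmt`
-/

set_option autoImplicit false

namespace Pool.Agent.OV

open Matrix Polynomial Pool.Agent.GO Pool.Agent.AR Pool.Agent.RG Pool.Agent.HZ Pool.Agent.DS
  Pool.Agent.AX MeasureTheory NumberField

theorem cross_le {Γ : Type} [Group Γ] {r : ℕ} {n : Fin r → ℕ}
    (V : (q : ℕ) → [Fact q.Prime] → (i : Fin r) → Γ →* Matrix (Fin (n i)) (Fin (n i)) ℤ_[q])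
    {J : Type} (p : J → ℕ) [∀ j, Fact (p j).Prime] {F : J → Type} [∀ j, Field (F j)]
    (ρ : ∀ j, Γ →* Matrix (Fin 2) (Fin 2) (F j)) (j : J) :
    cross V ρ j ≤ kerV (V (p j)) ⊔ adKer (ρ j) := by
  unfold cross
  refine sup_le_sup_right (inf_le_left.trans ?_) _
  unfold kerAll
  exact iInf_le_of_le (p j) (iInf_le (fun _ : Fact (p j).Prime => kerV (V (p j))) inferInstance)

theorem main (hM : MAIN1_stmt) {Γ Place E : Type} [Group Γ] [TopologicalSpace Γ]
    [IsTopologicalGroup Γ] [CompactSpace Γ] [MeasurableSpace Γ] [BorelSpace Γ] (μ : Measure Γ)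
    [μ.IsHaarMeasure] (frob : Place → Set Γ) (hd : DenseIn frob ⊤ Set.univ)
    (ch : Place → ℕ) (hch : ∀ q, {v | ch v = q}.Finite) (B : Set Place) (hB : B.Finite)
    [Field E] [NumberField E] {r : ℕ} {n : Fin r → ℕ} (P : Fin r → Place → ℤ[X])
    (Q : Place → E[X]) (hQ : ∀ v ∉ B, ∀ k, IsIntegral ℤ ((Q v).coeff k))
    (i₀ : Fin r) (hdet : ∀ v, (P i₀ v).map (Int.castRingHom E) = X - C ((Q v).coeff 0))
    (V : (q : ℕ) → [Fact q.Prime] → (i : Fin r) → Γ →* Matrix (Fin (n i)) (Fin (n i)) ℤ_[q])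
    (hV : ∀ (q : ℕ) [Fact q.Prime] (i : Fin r), Continuous (V q i))
    (hcV : ∀ (q : ℕ) [Fact q.Prime] (i : Fin r), ∀ v ∉ B, ch v ≠ q → ∀ s ∈ frob v,
      (V q i s).charpoly = (P i v).map (Int.castRingHom ℤ_[q]))
    {J : Type} [Infinite J] (p : J → ℕ) [∀ j, Fact (p j).Prime] (hp : Function.Injective p)
    (F κ : J → Type) [∀ j, NormedField (F j)] [∀ j, NormedAlgebra ℚ_[p j] (F j)]
    [∀ j, FiniteDimensional ℚ_[p j] (F j)] [∀ j, Field (κ j)] [∀ j, IsAlgClosed (κ j)]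
    [∀ j, CharP (κ j) (p j)] (ι : ∀ j, E →+* F j) (red : ∀ j, F j → κ j)
    (hred : ∀ j, IsRed (red j)) (ρ : ∀ j, Γ →* Matrix (Fin 2) (Fin 2) (F j))
    (hρ : ∀ j, Continuous (ρ j)) (hint : ∀ j g a b, ‖ρ j g a b‖ ≤ 1)
    (hcρ : ∀ j, ∀ v ∉ B, ch v ≠ p j → ∀ s ∈ frob v, (ρ j s).charpoly = (Q v).map (ι j))
    (hirr : ∀ j, ∀ U : Subgroup Γ, IsOpen (U : Set Γ) →
      Irred (fun u : U => bc (algebraMap (F j) (AlgebraicClosure (F j))) (ρ j) u))
    (J₀ : Set J) (hJ₀ : J₀.Finite)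
    (hres : ∀ j ∉ J₀, Irred (fun g => (ρ j g).map (red j)) ∧
      ∃ g, orderOf ((ρ j g).map (red j)) = p j) :
    ∃ N : ℕ,
      (∀ j, AdArises (fun i => mapHom (padicTo (p j) (F j) (AlgebraicClosure (F j))) (V (p j) i))
          (bc (algebraMap (F j) (AlgebraicClosure (F j))) (ρ j)) ∧
        (∀ (q : Place → ℕ) (s : ℕ) (w : Fin r → ℕ) (O : Set Place),
          IsGoodSet μ frob n (fun i v => (P i v).map (Int.castRingHom E)) Q q s w O →
          Arises (fun i => mapHom (padicTo (p j) (F j) (AlgebraicClosure (F j))) (V (p j) i))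
            (bc (algebraMap (F j) (AlgebraicClosure (F j))) (ρ j))) ∧
        (cross V ρ j).index = 0) ∨
      (∀ j, ¬ AdArises (fun i => mapHom (padicTo (p j) (F j) (AlgebraicClosure (F j)))
            (V (p j) i)) (bc (algebraMap (F j) (AlgebraicClosure (F j))) (ρ j)) ∧
        (∀ (q : Place → ℕ) (s : ℕ) (w : Fin r → ℕ) (O : Set Place),
          IsGoodSet μ frob n (fun i v => (P i v).map (Int.castRingHom E)) Q q s w O →
          ¬ Arises (fun i => mapHom (padicTo (p j) (F j) (AlgebraicClosure (F j))) (V (p j) i))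
            (bc (algebraMap (F j) (AlgebraicClosure (F j))) (ρ j))) ∧
        (cross V ρ j).index ≠ 0 ∧ (N < p j → (cross V ρ j).index ≤ 2)) ∧
      ∀ g : J → Γ, (∀ j, g j ∈ cross V ρ j) → ∃ h ∈ kerAll V, ∀ j, h⁻¹ * g j ∈ adKer (ρ j) := by
  classical
  choose O hO hI using fun j => exists_int (p j) (F j)
  have hchar : ∀ j, CharZero (F j) := fun j =>
    charZero_of_injective_algebraMap (algebraMap ℚ_[p j] (F j)).injective
  choose t ht1 ht2 ht3 using fun j => exists_top (p j) (F j)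
  have hTf : ∀ q, (B ∪ {v | ch v = q}).Finite := fun q => hB.union (hch q)
  have hreal : ∀ j, IsRealisation frob (fun i v => (P i v).map (Int.castRingHom E)) Q
      ((algebraMap (F j) (AlgebraicClosure (F j))).comp (ι j))
      (fun i => mapHom (padicTo (p j) (F j) (AlgebraicClosure (F j))) (V (p j) i))
      (bc (algebraMap (F j) (AlgebraicClosure (F j))) (ρ j)) := by
    intro j
    have h1 := realis (p j) (F j) (AlgebraicClosure (F j)) (ht3 j) frob (B ∪ {v | ch v = p j})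
      (hTf (p j)) P Q (V (p j)) (hV (p j)) ?_ (ι j) (ρ j) (hρ j) ?_ (hirr j)
    · exact h1
    · intro i v hv s hs
      have hv' : v ∉ B ∧ ch v ≠ p j := by simpa [not_or] using hv
      exact hcV (p j) i v hv'.1 hv'.2 s hs
    · intro v hv s hs
      have hv' : v ∉ B ∧ ch v ≠ p j := by simpa [not_or] using hv
      exact hcρ j v hv'.1 hv'.2 s hs
  have hfinp : ∀ m, {y : Unit × {j : J // j ∉ J₀} | p y.2.1 ≤ m}.Finite := by
    intro m
    have h1 : {j : J | p j ≤ m}.Finite := Set.Finite.preimage hp.injOn (Set.finite_Iic m)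
    refine Set.Finite.preimage (f := fun y : Unit × {j : J // j ∉ J₀} => y.2.1) ?_ h1
    rintro ⟨⟨⟩, y⟩ - ⟨⟨⟩, y'⟩ - h
    exact Prod.ext rfl (Subtype.ext h)
  have hfam := resid (K := Unit × {j : J // j ∉ J₀}) frob ch hch B hB P Q hQ
    (fun y => p y.2.1) hfinp (fun y => F y.2.1) (fun y => κ y.2.1)
    (fun y => V (p y.2.1)) (fun y i => hV (p y.2.1) i)
    (fun y i v hv hv' s hs => hcV (p y.2.1) i v hv hv' s hs)
    (fun y => ι y.2.1) (fun y => red y.2.1) (fun y => hred y.2.1) (fun y => ρ y.2.1)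
    (fun y => hρ y.2.1) (fun y => hint y.2.1)
    (fun y v hv hv' s hs => hcρ y.2.1 v hv hv' s hs)
    (fun y => O y.2.1) (fun y => hO y.2.1) (fun y => hI y.2.1)
    (fun y => hres y.2.1 y.2.2)
  obtain ⟨C₀, hC⟩ := hM μ frob hd (I := Unit) (J := J) (fun _ => P) Q i₀ (fun _ => hdet) ∅
    Set.finite_empty (Or.inl (Set.toFinite _)) (fun _ q _ => V q) (fun _ q _ i => hV q i)
    (fun _ q _ => ⟨_, hTf q, fun v hv s hs i => by
      have hv' : v ∉ B ∧ ch v ≠ q := by simpa [not_or] using hv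
      exact hcV q i v hv'.1 hv'.2 s hs⟩) p hp F
    (fun j => AlgebraicClosure (F j)) κ ι red hred ρ hρ hint (fun _ j => hreal j)
    (fun j => mapHom (redO (O j) (hO j) (red j) (hred j)) (intRep (O j) (hO j) (ρ j) (hint j)))
    (fun _ _ => rfl) J₀ hJ₀
    (fun j => plc (O j) (hO j) (hI j) (red j) (hred j) (ι j)) hfam
  refine ⟨C₀, ?_⟩
  rcases hC () with ⟨h1, -, h3⟩ | ⟨h1, h2, h3⟩
  · left
    intro j
    have h4 := h1 (AlgebraicClosure (F j)) _ _ _ (hreal j)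
    refine ⟨h4.1, h4.2, ?_⟩
    have h5 := Subgroup.index_dvd_of_le (cross_le V p ρ j)
    rw [h3 j] at h5
    exact zero_dvd_iff.1 h5
  · right
    refine ⟨fun j => ?_, h3⟩
    have h4 := h1 (AlgebraicClosure (F j)) _ _ _ (hreal j)
    exact ⟨h4.1, h4.2, (h2 j).1, (h2 j).2⟩

end Pool.Agent.OV
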