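import Pool.Agent.helper87.OV.Defs
import Pool.Agent.helper87.OV.Main

/-!
# MP_2e0e07_nt, project OV (one variety): the final statement from `MAIN1_stmt`
-/

set_option autoImplicit false

namespace Pool.Agent.OV

open Matrix Polynomial Pool.Agent.GO Pool.Agent.AR Pool.Agent.RG Pool.Agent.HZ Pool.Agent.DS
  Pool.Agent.AX MeasureTheory NumberField

theorem final (hM : MAIN1_stmt) {Γ Place E : Type} [Group Γ] [TopologicalSpace Γ]
    [IsTopologicalGroup Γ] [CompactSpace Γ] [MeasurableSpace Γ] [BorelSpace Γ] (μ : Measure Γ)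
    [μ.IsHaarMeasure] (frob : Place → Set Γ) (hd : DenseIn frob ⊤ Set.univ)
    (ch : Place → ℕ) (hch : ∀ q, {v | ch v = q}.Finite) (B : Set Place) (hB : B.Finite)
    [Field E] [NumberField E] {r : ℕ} {n : Fin r → ℕ} (P : Fin r → Place → ℤ[X])
    (Q : Place → E[X])
    (i₀ : Fin r) (hdet : ∀ v, (P i₀ v).map (Int.castRingHom E) = X - C ((Q v).coeff 0))
    (V : (q : ℕ) → [Fact q.Prime] → (i : Fin r) → Γ →* Matrix (Fin (n i)) (Fin (n i)) ℤ_[q])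
    (hV : IsCohomology frob ch B P V)
    {J : Type} [Infinite J] (p : J → ℕ) [∀ j, Fact (p j).Prime] (hp : Function.Injective p)
    (F κ : J → Type) [∀ j, NormedField (F j)] [∀ j, NormedAlgebra ℚ_[p j] (F j)]
    [∀ j, FiniteDimensional ℚ_[p j] (F j)] [∀ j, Field (κ j)] [∀ j, IsAlgClosed (κ j)]
    [∀ j, CharP (κ j) (p j)] (ι : ∀ j, E →+* F j) (red : ∀ j, F j → κ j)
    (ρ : ∀ j, Γ →* Matrix (Fin 2) (Fin 2) (F j)) (hρ : IsForm frob ch B Q p ι red ρ) :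
    ∃ N : ℕ,
      (∀ j, ComesFrom μ frob P Q (p j) (V (p j)) (ρ j) ∧ (cross V ρ j).index = 0) ∨
      ((∀ j, NotFrom μ frob P Q (p j) (V (p j)) (ρ j) ∧ (cross V ρ j).index ≠ 0 ∧
          (N < p j → (cross V ρ j).index ≤ 2)) ∧
        ∀ g : J → Γ, (∀ j, g j ∈ cross V ρ j) →
          ∃ h ∈ kerAll V, ∀ j, h⁻¹ * g j ∈ adKer (ρ j)) := by
  obtain ⟨J₀, hJ₀, hres⟩ := hρ.large
  obtain ⟨N, h⟩ := main hM μ frob hd ch hch B hB P Q hρ.integral i₀ hdet V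
    (fun q _ i => hV.cont q i) (fun q _ i => hV.charpoly q i) p hp F κ ι red hρ.residue ρ hρ.cont
    hρ.entries hρ.charpoly hρ.irred J₀ hJ₀ hres
  refine ⟨N, ?_⟩
  rcases h with h | ⟨h1, h2⟩
  · exact Or.inl fun j => ⟨⟨(h j).1, (h j).2.1⟩, (h j).2.2⟩
  · exact Or.inr ⟨fun j => ⟨⟨(h1 j).1, (h1 j).2.1⟩, (h1 j).2.2.1, (h1 j).2.2.2⟩, h2⟩

end Pool.Agent.OV
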