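import Pool.Agent.helper44.AX.SpecG

/-!
# MP_2e0e07_nt, project OV (one variety): local lemmas
-/

set_option autoImplicit false

namespace Pool.Agent.OV

open Matrix Polynomial Pool.Agent.GO Pool.Agent.AR Pool.Agent.RG Pool.Agent.HZ Pool.Agent.DS
  Pool.Agent.AX MeasureTheory NumberField

section norm

theorem ultra (p : ℕ) [Fact p.Prime] (F : Type) [NormedField F] [NormedAlgebra ℚ_[p] F] :
    IsUltrametricDist F := by
  refine IsUltrametricDist.isUltrametricDist_of_forall_norm_natCast_le_one fun n => ?_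
  rw [← map_natCast (algebraMap ℚ_[p] F) n, norm_algebraMap']
  have := Padic.norm_int_le_one (p := p) n
  simpa using this

theorem exists_int (p : ℕ) [Fact p.Prime] (F : Type) [NormedField F] [NormedAlgebra ℚ_[p] F] :
    ∃ O : Subring F, (∀ x, x ∈ O ↔ ‖x‖ ≤ 1) ∧ ∀ x : F, IsIntegral ℤ x → ‖x‖ ≤ 1 := by
  have := ultra p F
  have h0 : ∀ x : F, x ∈ (NormedField.valuation (K := F)).integer ↔ ‖x‖ ≤ 1 := by
    intro x
    rw [Valuation.mem_integer_iff, NormedField.valuation_apply, ← NNReal.coe_le_coe]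
    simp
  refine ⟨(NormedField.valuation (K := F)).integer, h0, fun x hx => ?_⟩
  have h1 : Valuation.Integers (NormedField.valuation (K := F))
      (NormedField.valuation (K := F)).integer := Valuation.integer.integers _
  have h2 : IsIntegral (NormedField.valuation (K := F)).integer x := hx.tower_top
  exact (h0 x).1 (h1.mem_of_integral h2)

end norm

/-- the reduction as a homomorphism of rings -/
def redO {F κ : Type} [NormedField F] [Field κ] (O : Subring F) (hO : ∀ x, x ∈ O ↔ ‖x‖ ≤ 1)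
    (red : F → κ) (h : IsRed red) : O →+* κ where
  toFun x := red x
  map_one' := h.one
  map_mul' x y := h.mul x y ((hO x).1 x.2) ((hO y).1 y.2)
  map_zero' := (h.zero_iff 0 (by simp)).2 (by simp)
  map_add' x y := h.add x y ((hO x).1 x.2) ((hO y).1 y.2)

/-- the integral form of a representation -/
def intRep {Γ F : Type} [Group Γ] [NormedField F] (O : Subring F) (hO : ∀ x, x ∈ O ↔ ‖x‖ ≤ 1)
    (ρ : Γ →* Matrix (Fin 2) (Fin 2) F) (hρ : ∀ g a b, ‖ρ g a b‖ ≤ 1) :
    Γ →* Matrix (Fin 2) (Fin 2) O where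
  toFun g := Matrix.of fun a b => ⟨ρ g a b, (hO _).2 (hρ g a b)⟩
  map_one' := by
    ext a b
    simp [Matrix.one_apply]
    split_ifs <;> simp
  map_mul' g h := by
    ext a b
    simp [Matrix.mul_apply, Fin.sum_univ_two]

theorem intRep_sub {Γ F : Type} [Group Γ] [NormedField F] (O : Subring F)
    (hO : ∀ x, x ∈ O ↔ ‖x‖ ≤ 1) (ρ : Γ →* Matrix (Fin 2) (Fin 2) F)
    (hρ : ∀ g a b, ‖ρ g a b‖ ≤ 1) (g : Γ) : (intRep O hO ρ hρ g).map O.subtype = ρ g := by
  ext a b
  rfl

theorem intRep_red {Γ F κ : Type} [Group Γ] [NormedField F] [Field κ] (O : Subring F)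
    (hO : ∀ x, x ∈ O ↔ ‖x‖ ≤ 1) (ρ : Γ →* Matrix (Fin 2) (Fin 2) F)
    (hρ : ∀ g a b, ‖ρ g a b‖ ≤ 1) (red : F → κ) (h : IsRed red) (g : Γ) :
    mapHom (redO O hO red h) (intRep O hO ρ hρ) g = (ρ g).map red := by
  ext a b
  rfl

/-- the place of `E` given by `ι` and the reduction -/
def plc {E F κ : Type} [Field E] [NumberField E] [NormedField F] [Field κ] (O : Subring F)
    (hO : ∀ x, x ∈ O ↔ ‖x‖ ≤ 1) (hI : ∀ x : F, IsIntegral ℤ x → ‖x‖ ≤ 1) (red : F → κ)
    (h : IsRed red) (ι : E →+* F) : 𝓞 E →+* κ :=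
  (redO O hO red h).comp
    ((ι.comp (algebraMap (𝓞 E) E)).codRestrict O fun x =>
      (hO _).2 (hI _ (map_isIntegral_int ι (NumberField.RingOfIntegers.isIntegral_coe x))))

theorem plc_apply {E F κ : Type} [Field E] [NumberField E] [NormedField F] [Field κ]
    (O : Subring F) (hO : ∀ x, x ∈ O ↔ ‖x‖ ≤ 1) (hI : ∀ x : F, IsIntegral ℤ x → ‖x‖ ≤ 1)
    (red : F → κ) (h : IsRed red) (ι : E →+* F) (a : 𝓞 E) :
    plc O hO hI red h ι a = red (ι (algebraMap (𝓞 E) E a)) := rfl

/-- the coefficients of the Frobenius polynomials and of their reductions -/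
theorem red_coeff {Γ E F κ : Type} [Group Γ] [Field E] [NumberField E] [NormedField F] [Field κ]
    (O : Subring F) (hO : ∀ x, x ∈ O ↔ ‖x‖ ≤ 1) (hI : ∀ x : F, IsIntegral ℤ x → ‖x‖ ≤ 1)
    (red : F → κ) (h : IsRed red) (ι : E →+* F) (ρ : Γ →* Matrix (Fin 2) (Fin 2) F)
    (hρ : ∀ g a b, ‖ρ g a b‖ ≤ 1) (s : Γ) (Q : E[X]) (hQ : (ρ s).charpoly = Q.map ι) (k : ℕ)
    (hk : IsIntegral ℤ (Q.coeff k)) :
    Red (plc O hO hI red h ι) (Q.coeff k)
      ((mapHom (redO O hO red h) (intRep O hO ρ hρ) s).charpoly.coeff k) := by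
  have h1 : (intRep O hO ρ hρ s).charpoly.map O.subtype = Q.map ι := by
    rw [← Matrix.charpoly_map, ← hQ]
    congr 1
  have h2 : (((intRep O hO ρ hρ s).charpoly.coeff k : O) : F) = ι (Q.coeff k) := by
    have := congrArg (fun q => q.coeff k) h1
    simpa [Polynomial.coeff_map] using this
  have h3 : (mapHom (redO O hO red h) (intRep O hO ρ hρ) s).charpoly.coeff k =
      red (ι (Q.coeff k)) := by
    have h4 : mapHom (redO O hO red h) (intRep O hO ρ hρ) s =
        (intRep O hO ρ hρ s).map (redO O hO red h) := rfl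
    rw [h4, Matrix.charpoly_map, Polynomial.coeff_map, ← h2]
    rfl
  refine ⟨⟨Q.coeff k, hk⟩, 1, by simp, by simp, ?_⟩
  rw [h3, plc_apply]
  simp

/-- the kernel of the reduction is open -/
theorem open_red {Γ F κ : Type} [Group Γ] [TopologicalSpace Γ] [IsTopologicalGroup Γ]
    [NormedField F] [Field κ] (O : Subring F) (hO : ∀ x, x ∈ O ↔ ‖x‖ ≤ 1) (red : F → κ)
    (h : IsRed red) (ρ : Γ →* Matrix (Fin 2) (Fin 2) F) (hc : Continuous ρ)
    (hρ : ∀ g a b, ‖ρ g a b‖ ≤ 1) :
    IsOpen ((mapHom (redO O hO red h) (intRep O hO ρ hρ)).ker : Set Γ) := by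
  refine Subgroup.isOpen_of_mem_nhds _ (g := 1) ?_
  have h1 : {g : Γ | ∀ a b, ‖ρ g a b - (1 : Matrix (Fin 2) (Fin 2) F) a b‖ < 1} ∈ nhds (1 : Γ) := by
    apply IsOpen.mem_nhds
    · have : {g : Γ | ∀ a b, ‖ρ g a b - (1 : Matrix (Fin 2) (Fin 2) F) a b‖ < 1} =
          ⋂ a, ⋂ b, {g : Γ | ‖ρ g a b - (1 : Matrix (Fin 2) (Fin 2) F) a b‖ < 1} := by
        ext g
        simp
      rw [this]
      refine isOpen_iInter_of_finite fun a => isOpen_iInter_of_finite fun b => ?_
      refine isOpen_lt ?_ continuous_const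
      exact ((hc.matrix_elem a b).sub continuous_const).norm
    · intro a b
      rw [map_one, sub_self, norm_zero]
      exact one_pos
  refine Filter.mem_of_superset h1 fun g hg => ?_
  have h2 : mapHom (redO O hO red h) (intRep O hO ρ hρ) g = 1 := by
    rw [intRep_red]
    ext a b
    rw [Matrix.map_apply]
    have h3 : ‖(1 : Matrix (Fin 2) (Fin 2) F) a b‖ ≤ 1 := by
      rw [Matrix.one_apply]
      split_ifs <;> simp
    have h4 : ‖ρ g a b - (1 : Matrix (Fin 2) (Fin 2) F) a b‖ ≤ 1 := (hg a b).le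
    have h5 := h.add _ _ h4 h3
    rw [sub_add_cancel, (h.zero_iff _ h4).2 (hg a b), zero_add] at h5
    rw [h5, Matrix.one_apply, Matrix.one_apply]
    split_ifs
    · exact h.one
    · exact (h.zero_iff 0 (by simp)).2 (by simp)
  exact h2

/-- the kernel of the reduction modulo `p` is open -/
theorem open_zmod {Γ : Type} [Group Γ] [TopologicalSpace Γ] [IsTopologicalGroup Γ] (p : ℕ)
    [Fact p.Prime] (n : ℕ) (V : Γ →* Matrix (Fin n) (Fin n) ℤ_[p]) (hc : Continuous V) :
    IsOpen ((mapHom (PadicInt.toZMod (p := p)) V).ker : Set Γ) := by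
  refine Subgroup.isOpen_of_mem_nhds _ (g := 1) ?_
  have h1 : {g : Γ | ∀ a b, ‖V g a b - (1 : Matrix (Fin n) (Fin n) ℤ_[p]) a b‖ < 1} ∈
      nhds (1 : Γ) := by
    apply IsOpen.mem_nhds
    · have : {g : Γ | ∀ a b, ‖V g a b - (1 : Matrix (Fin n) (Fin n) ℤ_[p]) a b‖ < 1} =
          ⋂ a, ⋂ b, {g : Γ | ‖V g a b - (1 : Matrix (Fin n) (Fin n) ℤ_[p]) a b‖ < 1} := by
        ext g
        simp
      rw [this]
      refine isOpen_iInter_of_finite fun a => isOpen_iInter_of_finite fun b => ?_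
      refine isOpen_lt ?_ continuous_const
      exact ((hc.matrix_elem a b).sub continuous_const).norm
    · intro a b
      rw [map_one, sub_self, norm_zero]
      exact one_pos
  refine Filter.mem_of_superset h1 fun g hg => ?_
  have h2 : mapHom (PadicInt.toZMod (p := p)) V g = 1 := by
    ext a b
    change PadicInt.toZMod (V g a b) = _
    have h3 : PadicInt.toZMod (V g a b - (1 : Matrix (Fin n) (Fin n) ℤ_[p]) a b) = 0 := by
      rw [← RingHom.mem_ker, PadicInt.ker_toZMod, IsLocalRing.mem_maximalIdeal, mem_nonunits_iff,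
        PadicInt.isUnit_iff]
      exact (hg a b).ne
    rw [map_sub, sub_eq_zero] at h3
    rw [h3, Matrix.one_apply, Matrix.one_apply]
    split_ifs <;> simp
  exact h2

section top

theorem alg_closure (p : ℕ) [Fact p.Prime] (F : Type) [NormedField F] [NormedAlgebra ℚ_[p] F]
    [FiniteDimensional ℚ_[p] F] : Algebra.IsAlgebraic ℚ_[p] (AlgebraicClosure F) :=
  Algebra.IsAlgebraic.trans ℚ_[p] F (AlgebraicClosure F)

/-- a topology on the algebraic closure of `F` -/
theorem exists_top (p : ℕ) [Fact p.Prime] (F : Type) [NormedField F] [NormedAlgebra ℚ_[p] F]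
    [FiniteDimensional ℚ_[p] F] : ∃ (_ : TopologicalSpace (AlgebraicClosure F)),
    IsTopologicalRing (AlgebraicClosure F) ∧ T2Space (AlgebraicClosure F) ∧
    Continuous (algebraMap F (AlgebraicClosure F)) := by
  have := alg_closure p F
  let i1 : NormedField (AlgebraicClosure F) := spectralNorm.normedField ℚ_[p] (AlgebraicClosure F)
  refine ⟨inferInstance, inferInstance, inferInstance, ?_⟩
  let i2 : NormedAlgebra F (AlgebraicClosure F) :=
    spectralNorm.normedAlgebra' ℚ_[p] F (AlgebraicClosure F)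
  exact continuous_algebraMap F (AlgebraicClosure F)

end top

end Pool.Agent.OV
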